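import Mathlib
import Pool.Agent.Q263.PK.Gen

/-!
# The pairs `p`, `p ^ 2 + p + 1` at the integers with restricted digits: the constant `H` and the gaps

Fix a base `b ≥ 2`. For `k ≥ 1` choose for every position `i < k` a set `D i` of digits, in any way,
such that two digits in `D i` have a difference without prime factors outside `b`, for example two
consecutive digits. Let `S` be the set of the integers `0 ≤ n < b ^ k` whose `i`-th digit is in
`D i` for every `i`; it may have only `2 ^ k` elements. Let `S(y)` be the set of the `n ∈ S` such that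
neither `n` nor `n ^ 2 + n + 1` has a prime factor `≤ y`, `V(y) = ∏_{p ≤ y} (1 - 1 / p)`, and let

  `H(y) = 1 / 2 ∏_{p ≤ y} (1 - 1 / p) ^ (-2) (1 - (2 + χ(p)) / p)`

be the partial product of the constant `H` of Bateman and Stemmler.

For all `Λ` and `ε > 0` there are `L`, `y₀`, `k₀`, which depend on `b`, `Λ` and `ε` only, such that
for all `k ≥ k₀`, all choices of the sets of digits and all `y ≥ y₀` with `y ^ L ≤ b ^ k`:

(1) the number of the elements of `S(y)` is

  `(1 + θ) · g · ∏_{i ≥ 1} |D i| · ∏_{p ∣ b} (1 - (2 + χ(p)) / p)⁻¹ · 2 H(y) V(y) ^ 2`, `|θ| ≤ ε`,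

where `g` is the number of the last digits `d ∈ D 0` such that `d (d ^ 2 + d + 1)` is coprime to `b`;

(2) for all `T` with `x = T · 2 H(y) V(y) ^ 2 ≤ Λ` and all finite sets `A` the proportion of
the `n ∈ S(y)` for which the number of the `t` in `(n, n + T]` such that neither `t` nor
`t ^ 2 + t + 1` has a prime factor `≤ y` belongs to `A` differs from `∑_{j ∈ A} exp(-x) x ^ j / j!` by
at most `ε`. So the distance to the next such `t` has the exponential distribution, and the constant
`H` is seen also in the gaps.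
-/

set_option autoImplicit false

namespace Pool.Agent.Results.MP_82233c_nt.ConstantAtDigits

open Finset Polynomial
open scoped NumberTheorySymbols

/-- The integers `0 ≤ n < b ^ k` whose `i`-th digit in base `b` belongs to `D i`, for all `i < k`. -/
def Restricted (b k : ℕ) (D : Fin k → Finset ℕ) : Finset ℕ :=
  (Finset.range (b ^ k)).filter (fun n => ∀ i : Fin k, n / b ^ (i : ℕ) % b ∈ D i)

/-- Each `D i` is a set of digits, and it has two digits `c < c'` such that every prime factor of
`c' - c` divides `b`. -/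
def DigitSets (b k : ℕ) (D : Fin k → Finset ℕ) : Prop :=
  ∀ i, (∀ d ∈ D i, d < b) ∧ ∃ c ∈ D i, ∃ c' ∈ D i, c < c' ∧
    ∀ p : ℕ, p.Prime → p ∣ c' - c → p ∣ b

/-- The product `n (n ^ 2 + n + 1)`. -/
def both (n : ℕ) : ℤ := (n : ℤ) * ((n : ℤ) ^ 2 + n + 1)

/-- Neither `n` nor `n ^ 2 + n + 1` has a prime factor `≤ y`. -/
def Rough (y n : ℕ) : Prop := ∀ p : ℕ, p.Prime → p ≤ y → ¬ (p : ℤ) ∣ both n

open Classical in
/-- The set `S(y)`. -/
noncomputable def Start (b k : ℕ) (D : Fin k → Finset ℕ) (y : ℕ) : Finset ℕ :=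
  (Restricted b k D).filter (fun n => Rough y n)

open Classical in
/-- The number of the `t` in `(n, n + T]` such that neither `t` nor `t ^ 2 + t + 1` has a prime
factor `≤ y`. -/
noncomputable def next (y T n : ℕ) : ℕ := ((Finset.Ioc n (n + T)).filter (fun t => Rough y t)).card

/-- The function `χ` of the problem: `1`, `-1`, `0` according as `p ≡ 1, 2, 0` modulo `3`. -/
def chi (p : ℕ) : ℤ := if p % 3 = 1 then 1 else if p % 3 = 2 then -1 else 0

/-- The product of `1 - 1 / p` over the primes `p ≤ y`. -/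
noncomputable def V (y : ℕ) : ℝ := ∏ p ∈ (Finset.Icc 1 y).filter Nat.Prime, (1 - 1 / (p : ℝ))

/-- The partial product `H(y)` of the constant `H` of the problem. -/
noncomputable def H (y : ℕ) : ℝ := 1 / 2 * ∏ p ∈ (Finset.Icc 1 y).filter Nat.Prime,
  ((1 - 1 / (p : ℝ)) ^ 2)⁻¹ * (1 - (2 + (chi p : ℝ)) / (p : ℝ))

/-- The number of the last digits `d` such that `d (d ^ 2 + d + 1)` is coprime to `b`. -/
def lastDigits (b k : ℕ) (D : Fin k → Finset ℕ) : ℕ :=
  (((Finset.univ : Finset (Fin k)).filter (fun i : Fin k => (i : ℕ) = 0)).biUnion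
    (fun i => (D i).filter (fun d : ℕ => Int.gcd (both d) b = 1))).card

/-- The product of the numbers of the elements of `D i` over the positions `i ≥ 1`. -/
def otherDigits (k : ℕ) (D : Fin k → Finset ℕ) : ℕ :=
  ∏ i ∈ (Finset.univ : Finset (Fin k)).filter (fun i : Fin k => (i : ℕ) ≠ 0), (D i).card

/-- The main term. -/
noncomputable def mainTerm (b k : ℕ) (D : Fin k → Finset ℕ) (y : ℕ) : ℝ :=
  (lastDigits b k D : ℝ) * otherDigits k D *
    (∏ p ∈ b.primeFactors, (1 - (2 + (chi p : ℝ)) / (p : ℝ)))⁻¹ * (2 * H y * V y ^ 2)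

/-- The measure of `A` for the Poisson distribution with the mean `x`. -/
noncomputable def poisson (x : ℝ) (A : Finset ℕ) : ℝ :=
  ∑ j ∈ A, Real.exp (-x) * x ^ j / (j.factorial : ℝ)

open Pool.Agent.W123.RU.Poly (Sys Q)
open Pool.Agent.H373R2.T7 Pool.Agent.W123.RP Pool.Agent.W123.RU Pool.Agent.TH464.PO
open Pool.Agent.Q263.PK Pool.Agent.Q263.PK.Gen

/-- the quadratic polynomial -/
noncomputable def F2 : ℤ[X] := C 1 * X ^ 2 + C 1 * X + C 1

/-- the polynomials -/
noncomputable def F : Fin 2 → ℤ[X] := fun i => if i = 0 then X else F2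

lemma F0 : F 0 = X := by
  unfold F
  rw [if_pos rfl]

lemma F1 : F 1 = F2 := by
  unfold F
  rw [if_neg (by decide)]

lemma F2_eval (t : ℤ) : F2.eval t = t ^ 2 + t + 1 := by
  unfold F2
  rw [eval_quad]
  ring

lemma F2_deg : F2.natDegree = 2 := by
  unfold F2
  exact deg_quad 1 1 1 (by norm_num)

lemma F_inj : Function.Injective F := by
  have h01 : F 0 ≠ F 1 := by
    rw [F0, F1]
    intro h
    have h1 := congrArg Polynomial.natDegree h
    rw [F2_deg, natDegree_X] at h1
    norm_num at h1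
  intro i j h
  fin_cases i <;> fin_cases j
  · rfl
  · exact absurd h h01
  · exact absurd h.symm h01
  · rfl

lemma F_sys : Sys F := by
  refine ⟨fun i => ?_, fun i => ?_, fun i => ?_, F_inj, ?_⟩
  · fin_cases i
    · change Irreducible (F 0)
      rw [F0]
      exact irreducible_X
    · change Irreducible (F 1)
      rw [F1]
      unfold F2
      apply irr_quad 1 1 1 (by norm_num) ⟨1, 0, 0, by norm_num⟩
      rintro ⟨r, hr⟩
      nlinarith [mul_self_nonneg r]
  · fin_cases i
    · change 0 < (F 0).natDegree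
      rw [F0, natDegree_X]
      norm_num
    · change 0 < (F 1).natDegree
      rw [F1, F2_deg]
      norm_num
  · fin_cases i
    · change 0 < (F 0).leadingCoeff
      rw [F0, leadingCoeff_X]
      norm_num
    · change 0 < (F 1).leadingCoeff
      rw [F1]
      unfold F2
      rw [lead_quad 1 1 1 (by norm_num)]
      norm_num
  · intro p hp
    rcases eq_or_ne p 3 with rfl | h3
    · refine ⟨2, fun i h => ?_⟩
      fin_cases i
      · change ((3 : ℕ) : ℤ) ∣ (F 0).eval _ at h
        rw [F0, eval_X] at h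
        norm_num at h
      · change ((3 : ℕ) : ℤ) ∣ (F 1).eval _ at h
        rw [F1, F2_eval] at h
        norm_num at h
    · refine ⟨1, fun i h => ?_⟩
      fin_cases i
      · change (p : ℤ) ∣ (F 0).eval _ at h
        rw [F0, eval_X] at h
        have h2 : p ∣ 1 := by exact_mod_cast h
        exact hp.one_lt.ne' (Nat.dvd_one.1 h2)
      · change (p : ℤ) ∣ (F 1).eval _ at h
        rw [F1, F2_eval] at h
        have h1 : (p : ℤ) ∣ 3 := by
          norm_num at h
          exact h
        have h2 : p ∣ 3 := by exact_mod_cast h1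
        exact h3 ((Nat.prime_dvd_prime_iff_eq hp Nat.prime_three).1 h2)

lemma Q_iff (p m : ℕ) (hp : p.Prime) : Q F p m ↔ (p : ℤ) ∣ both m := by
  have hpz : Prime (p : ℤ) := Nat.prime_iff_prime_int.1 hp
  unfold Q both
  rw [hpz.dvd_mul]
  constructor
  · rintro ⟨i, h⟩
    fin_cases i
    · left
      change (p : ℤ) ∣ (F 0).eval _ at h
      rwa [F0, eval_X] at h
    · right
      change (p : ℤ) ∣ (F 1).eval _ at h
      rwa [F1, F2_eval] at h
  · rintro (h | h)
    · refine ⟨0, ?_⟩
      rwa [F0, eval_X]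
    · refine ⟨1, ?_⟩
      rwa [F1, F2_eval]

lemma F_noTr : NoTr2 F F := by
  intro i j t ht h
  have hd : ∀ f : ℤ[X], (f.comp (X + C (t : ℤ))).natDegree = f.natDegree := by
    intro f
    rw [natDegree_comp, natDegree_X_add_C, mul_one]
  have hij : i = j := by
    have h1 := congrArg Polynomial.natDegree h
    rw [hd] at h1
    have h0 : (F 0).natDegree = 1 := by rw [F0, natDegree_X]
    have h2 : (F 1).natDegree = 2 := by rw [F1, F2_deg]
    fin_cases i <;> fin_cases j
    · rfl
    · change (F 0).natDegree = (F 1).natDegree at h1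
      omega
    · change (F 1).natDegree = (F 0).natDegree at h1
      omega
    · rfl
  subst hij
  have hdeg : 0 < (F i).natDegree := F_sys.deg i
  exact noTr_single (F i) hdeg 0 0 t ht h

lemma jac3 (p : ℕ) (hp : p.Prime) (h2 : p ≠ 2) (h3 : p ≠ 3) : J(-3 | p) = chi p := by
  have : Fact p.Prime := ⟨hp⟩
  have hodd : Odd p := hp.odd_of_ne_two h2
  have h1 : J(-3 | p) = J(-1 | p) * J(3 | p) := by
    rw [← jacobiSym.mul_left]
    norm_num
  have h4 := jacobiSym.quadratic_reciprocity (a := 3) (b := p) (by decide) hodd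
  have h5 := jacobiSym.at_neg_one hodd
  have h6 : ZMod.χ₄ (p : ZMod 4) = (-1) ^ (p / 2) := ZMod.χ₄_eq_neg_one_pow (Nat.odd_iff.1 hodd)
  have h7 : J(3 | p) = (-1) ^ (p / 2) * J(p | 3) := by
    have := h4
    norm_num at this
    exact_mod_cast this
  rw [h1, h5, h6, h7, ← mul_assoc, ← pow_add, ← two_mul, pow_mul]
  norm_num
  have h8 : J(p | 3) = J(((p % 3 : ℕ) : ℤ) | 3) := by
    rw [jacobiSym.mod_left]
    push_cast
    rfl
  rw [h8]
  unfold chi
  have h9 : p % 3 ≠ 0 := by
    intro h
    exact h3 ((Nat.prime_dvd_prime_iff_eq Nat.prime_three hp).1 (Nat.dvd_of_mod_eq_zero h)).symm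
  have h10 : p % 3 = 1 ∨ p % 3 = 2 := by omega
  rcases h10 with h | h
  · rw [h]
    simp
  · rw [h]
    simp
    norm_num

open Classical in
/-- the number of the roots -/
lemma rho_eq (p : ℕ) (hp : p.Prime) : (rho both p : ℝ) = 2 + (chi p : ℝ) := by
  have hpz : Prime (p : ℤ) := Nat.prime_iff_prime_int.1 hp
  unfold rho
  have hsplit : (range p).filter (fun r => (p : ℤ) ∣ both r) =
      insert 0 ((range p).filter (fun r : ℕ => (p : ℤ) ∣ (r : ℤ) ^ 2 + r + 1)) := by
    ext r
    rw [mem_insert, mem_filter, mem_filter, mem_range]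
    unfold both
    rw [hpz.dvd_mul]
    constructor
    · rintro ⟨h1, h2 | h2⟩
      · left
        have h3 : p ∣ r := by exact_mod_cast h2
        exact Nat.eq_zero_of_dvd_of_lt h3 h1
      · exact Or.inr ⟨h1, h2⟩
    · rintro (rfl | ⟨h1, h2⟩)
      · exact ⟨hp.pos, Or.inl (by simp)⟩
      · exact ⟨h1, Or.inr h2⟩
  have h0 : 0 ∉ (range p).filter (fun r : ℕ => (p : ℤ) ∣ (r : ℤ) ^ 2 + r + 1) := by
    rw [mem_filter]
    rintro ⟨_, h⟩
    have h1 : (p : ℤ) ∣ 1 := by simpa using h
    have h2 : p ∣ 1 := by exact_mod_cast h1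
    exact hp.one_lt.ne' (Nat.dvd_one.1 h2)
  rw [hsplit, card_insert_of_notMem h0]
  have key : ((((range p).filter (fun r : ℕ => (p : ℤ) ∣ (r : ℤ) ^ 2 + r + 1)).card : ℕ) : ℝ) =
      1 + (chi p : ℝ) := by
    rcases eq_or_ne p 2 with rfl | h2
    · have h1 : (range 2).filter (fun r : ℕ => ((2 : ℕ) : ℤ) ∣ (r : ℤ) ^ 2 + r + 1) = ∅ := by
        rw [filter_eq_empty_iff]
        intro r hr
        rw [mem_range] at hr
        interval_cases r <;> norm_num
      rw [h1]
      norm_num [chi]
    rcases eq_or_ne p 3 with rfl | h3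
    · have h1 : (range 3).filter (fun r : ℕ => ((3 : ℕ) : ℤ) ∣ (r : ℤ) ^ 2 + r + 1) = {1} := by
        ext r
        rw [mem_filter, mem_range, mem_singleton]
        constructor
        · rintro ⟨h1, h3⟩
          interval_cases r
          · norm_num at h3
          · rfl
          · norm_num at h3
        · rintro rfl
          norm_num
      rw [h1]
      norm_num [chi]
    · have : Fact p.Prime := ⟨hp⟩
      have h3' := legendreSym.card_sqrts p h2 (-3)
      rw [jacobiSym.legendreSym.to_jacobiSym, jac3 p hp h2 h3] at h3'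
      have hodd : p % 2 = 1 := Nat.odd_iff.1 (hp.odd_of_ne_two h2)
      have h2ne : (2 : ZMod p) ≠ 0 := by
        intro h
        have h5 : ((2 : ℕ) : ZMod p) = 0 := by exact_mod_cast h
        rw [ZMod.natCast_eq_zero_iff] at h5
        exact h2 ((Nat.prime_dvd_prime_iff_eq hp Nat.prime_two).1 h5)
      have h4 : ((range p).filter (fun r : ℕ => (p : ℤ) ∣ (r : ℤ) ^ 2 + r + 1)).card =
          ({x : ZMod p | x ^ 2 = ((-3 : ℤ) : ZMod p)}.toFinset).card := by
        apply Finset.card_bij (fun (a : ℕ) _ => 2 * (a : ZMod p) + 1)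
        · intro a ha
          rw [Finset.mem_filter] at ha
          rw [Set.mem_toFinset, Set.mem_ofPred_eq]
          have h5 : (((a : ℤ) ^ 2 + a + 1 : ℤ) : ZMod p) = 0 :=
            (ZMod.intCast_zmod_eq_zero_iff_dvd _ _).2 ha.2
          push_cast at h5 ⊢
          linear_combination 4 * h5
        · intro a ha c hc h
          rw [Finset.mem_filter, Finset.mem_range] at ha hc
          have h5 : (a : ZMod p) = c := by
            have h6 : (2 : ZMod p) * a = 2 * c := by linear_combination h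
            exact mul_left_cancel₀ h2ne h6
          have h7 := congrArg ZMod.val h5
          rwa [ZMod.val_natCast_of_lt ha.1, ZMod.val_natCast_of_lt hc.1] at h7
        · intro x hx
          rw [Set.mem_toFinset, Set.mem_ofPred_eq] at hx
          refine ⟨((x - 1) / 2).val, ?_, ?_⟩
          · rw [Finset.mem_filter, Finset.mem_range]
            refine ⟨ZMod.val_lt _, ?_⟩
            rw [← ZMod.intCast_zmod_eq_zero_iff_dvd]
            push_cast
            rw [ZMod.natCast_zmod_val]
            have h8 : x ^ 2 + 3 = 0 := by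
              rw [hx]
              push_cast
              ring
            field_simp
            linear_combination h8
          · rw [ZMod.natCast_zmod_val]
            field_simp
            ring
      rw [h4]
      have h5 : (((({x : ZMod p | x ^ 2 = ((-3 : ℤ) : ZMod p)}.toFinset).card : ℤ)) : ℝ) =
          ((chi p + 1 : ℤ) : ℝ) := by rw [h3']
      push_cast at h5 ⊢
      rw [h5]
      ring
  push_cast at key ⊢
  rw [key]
  ring

lemma chi_le (p : ℕ) : (chi p : ℝ) ≤ 1 := by
  unfold chi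
  split_ifs <;> norm_num

lemma fac_pos (p : ℕ) (hp : p.Prime) : 0 < (1 : ℝ) - (2 + (chi p : ℝ)) / p := by
  have hp0 : (0 : ℝ) < p := by exact_mod_cast hp.pos
  have h1 : (2 + (chi p : ℝ)) / p < 1 := by
    rw [div_lt_one hp0]
    rcases eq_or_ne p 2 with rfl | h2
    · norm_num [chi]
    rcases eq_or_ne p 3 with rfl | h3
    · norm_num [chi]
    · have h4 : (4 : ℝ) ≤ p := by
        have := hp.two_le
        exact_mod_cast (by omega : 4 ≤ p)
      have := chi_le p
      linarith
  linarith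

/-- the product over all primes -/
lemma prod_all (y : ℕ) : ∏ p ∈ (Finset.Icc 1 y).filter Nat.Prime, (1 - (2 + (chi p : ℝ)) / (p : ℝ)) =
    2 * H y * V y ^ 2 := by
  unfold H V
  rw [← mul_assoc, mul_one_div_cancel (by norm_num), one_mul, ← prod_pow, ← prod_mul_distrib]
  apply prod_congr rfl
  intro p hp
  have hp2 : (2 : ℝ) ≤ p := by exact_mod_cast (mem_filter.1 hp).2.two_le
  have h2 : 1 / (p : ℝ) ≤ 1 / 2 := by
    apply div_le_div_of_nonneg_left (by norm_num) (by norm_num) hp2
  have h3 : 0 < (1 - 1 / (p : ℝ)) ^ 2 := pow_pos (by linarith) _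
  rw [mul_comm, ← mul_assoc, mul_inv_cancel₀ h3.ne', one_mul]

lemma dens_eq (y : ℕ) : Gen.dens both y = 2 * H y * V y ^ 2 := by
  rw [← prod_all]
  unfold Gen.dens
  apply prod_congr rfl
  intro p hp
  rw [rho_eq p (mem_filter.1 hp).2]

lemma main_eq (b k : ℕ) (hb : b ≠ 0) (D : Fin k → Finset ℕ) (y : ℕ) (hby : b ≤ y) :
    Gen.mainTerm b k D both y = mainTerm b k D y := by
  unfold Gen.mainTerm mainTerm
  have e1 : ∏ p ∈ (Finset.Icc 1 y).filter (fun p => p.Prime ∧ ¬ p ∣ b), (1 - (rho both p : ℝ) / (p : ℝ)) =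
      (∏ p ∈ b.primeFactors, (1 - (2 + (chi p : ℝ)) / (p : ℝ)))⁻¹ * (2 * H y * V y ^ 2) := by
    have e2 : ∏ p ∈ (Finset.Icc 1 y).filter (fun p => p.Prime ∧ ¬ p ∣ b),
        (1 - (rho both p : ℝ) / (p : ℝ)) =
        ∏ p ∈ (Finset.Icc 1 y).filter (fun p => p.Prime ∧ ¬ p ∣ b), (1 - (2 + (chi p : ℝ)) / (p : ℝ)) := by
      apply prod_congr rfl
      intro p hp
      rw [rho_eq p (mem_filter.1 hp).2.1]
    rw [e2, ← prod_all]
    have h2 : b.primeFactors ⊆ (Finset.Icc 1 y).filter Nat.Prime := by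
      intro p hp
      rw [Nat.mem_primeFactors] at hp
      rw [mem_filter, mem_Icc]
      have := Nat.le_of_dvd (Nat.pos_of_ne_zero hb) hp.2.1
      exact ⟨⟨hp.1.one_lt.le, by omega⟩, hp.1⟩
    have h3 : (Finset.Icc 1 y).filter (fun p => p.Prime ∧ ¬ p ∣ b) =
        (Finset.Icc 1 y).filter Nat.Prime \ b.primeFactors := by
      ext p
      rw [mem_filter, mem_sdiff, mem_filter, mem_Icc, Nat.mem_primeFactors]
      constructor
      · rintro ⟨h4, h5, h6⟩
        exact ⟨⟨h4, h5⟩, fun h => h6 h.2.1⟩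
      · rintro ⟨⟨h4, h5⟩, h6⟩
        exact ⟨h4, h5, fun h => h6 ⟨h5, h, hb⟩⟩
    rw [h3, ← prod_sdiff h2]
    have h4 : ∏ p ∈ b.primeFactors, (1 - (2 + (chi p : ℝ)) / (p : ℝ)) ≠ 0 :=
      (prod_pos fun p hp => fac_pos p (Nat.prime_of_mem_primeFactors hp)).ne'
    field_simp
  rw [e1]
  change (lastDigits b k D : ℝ) * otherDigits k D * _ = _
  ring

open Classical in
theorem result : ∀ b : ℕ, 2 ≤ b → ∀ Λ ε : ℝ, 0 < ε →
    ∃ L y₀ k₀ : ℕ, 1 ≤ L ∧ ∀ k : ℕ, k₀ ≤ k → ∀ D : Fin k → Finset ℕ, DigitSets b k D →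
      ∀ y : ℕ, y₀ ≤ y → y ^ L ≤ b ^ k →
      |((Start b k D y).card : ℝ) - mainTerm b k D y| ≤ ε * mainTerm b k D y ∧
      ∀ T : ℕ, T * (2 * H y * V y ^ 2) ≤ Λ → ∀ A : Finset ℕ,
        |(((Start b k D y).filter (fun n => next y T n ∈ A)).card : ℝ) -
          (Start b k D y).card * poisson (T * (2 * H y * V y ^ 2)) A| ≤
            ε * (Start b k D y).card := by
  intro b hb Λ ε hε
  obtain ⟨L, y₀, k₀, hL, h⟩ := law hb F F_sys F F_sys F_noTr F_noTr both both Q_iff Q_iff Λ ε hε
  refine ⟨L, max y₀ b, k₀, hL, ?_⟩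
  intro k hk D hD y hy hyL
  have h1 := h k hk D hD y ((le_max_left _ _).trans hy) hyL
  rw [main_eq b k (by omega) D y ((le_max_right _ _).trans hy), dens_eq] at h1
  exact h1

end Pool.Agent.Results.MP_82233c_nt.ConstantAtDigits
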