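import Pool.Agent.Q250.NP.NatRow

/-!
# Primes `p` with several numbers `1 + p + ... + p ^ (r - 1)` almost prime: narrow progressions
-/

set_option autoImplicit false

namespace Pool.Agent.Results.MP_82233c_nt.CyclotomicProgressions

open Finset Filter Polynomial
open Pool.Agent.Q250.NP
open Pool.Agent.Q253.Line (W NFD rt)

/-- `1 + p + ... + p ^ (r - 1)`; for `r = 3` this is `p ^ 2 + p + 1` -/
def rep (r p : ℕ) : ℕ := ∑ j ∈ range r, p ^ j

/-- the number of the classes `x` modulo `p` with `p ∣ x ∏ (1 + x + ... + x ^ (r_i - 1))` -/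
def omega {m : ℕ} (r : Fin m → ℕ) (p : ℕ) : ℕ := ((range p).filter (fun x : ℕ => p ∣ x * ∏ i, rep (r i) x)).card

/-- the product of `1 - omega p / p` over the primes `p ≤ n` -/
noncomputable def dens {m : ℕ} (r : Fin m → ℕ) (n : ℕ) : ℝ := ∏ p ∈ (Icc 1 n).filter Nat.Prime, (1 - (omega r p : ℝ) / p)

open Classical in
/-- the primes `n < p < 2 n` such that all prime factors of all the `1 + p + ... + p ^ (r_i - 1)` are larger than `n ^ (1/t)` -/
noncomputable def Good {m : ℕ} (t n : ℕ) (r : Fin m → ℕ) : Finset ℕ :=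
  (Ioo n (2 * n)).filter (fun p : ℕ => p.Prime ∧ ∀ i, ∀ l : ℕ, l.Prime → l ∣ rep (r i) p → (n : ℝ) ^ (1 / (t : ℝ)) < l)

/-- the polynomials -/
noncomputable def G {m : ℕ} (r : Fin m → ℕ) (i : Fin m) : ℤ[X] := ∑ j ∈ range (r i), X ^ j

theorem eval_G {m : ℕ} (r : Fin m → ℕ) (i : Fin m) (x : ℤ) : (G r i).eval x = ∑ j ∈ range (r i), x ^ j := by
  unfold G
  rw [eval_finsetSum]
  simp

theorem eval_G_nat {m : ℕ} (r : Fin m → ℕ) (i : Fin m) (x : ℕ) : (G r i).eval (x : ℤ) = (rep (r i) x : ℤ) := by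
  rw [eval_G]
  unfold rep
  push_cast
  rfl

theorem eval_G_neg {m : ℕ} (r : Fin m → ℕ) (i : Fin m) (h : Odd (r i)) : (G r i).eval (-1) = 1 := by
  rw [eval_G]
  obtain ⟨k, hk⟩ := h
  rw [hk]
  clear hk
  induction k with
  | zero => simp
  | succ k ih =>
    rw [show 2 * (k + 1) + 1 = (2 * k + 1) + 1 + 1 by ring, sum_range_succ, sum_range_succ, ih]
    have h1 : (-1 : ℤ) ^ (2 * k + 1) = -1 := Odd.neg_one_pow ⟨k, rfl⟩
    have h2 : (-1 : ℤ) ^ (2 * k + 1 + 1) = 1 := Even.neg_one_pow ⟨k + 1, by ring⟩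
    rw [h1, h2]
    norm_num

theorem rep_bounds {r y : ℕ} (hr : 3 ≤ r) (hy : 2 ≤ y) : 2 ≤ rep r y ∧ rep r y ≤ y ^ r := by
  unfold rep
  constructor
  · calc 2 ≤ ∑ j ∈ range 2, y ^ j := by
          rw [sum_range_succ, sum_range_one]
          simp
          omega
      _ ≤ ∑ j ∈ range r, y ^ j := sum_le_sum_of_subset (range_subset_range.2 (by omega))
  · have h : ∀ r : ℕ, ∑ j ∈ range r, y ^ j ≤ y ^ r := by
      intro r
      induction r with
      | zero => simp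
      | succ r ih =>
        rw [sum_range_succ, pow_succ]
        nlinarith [Nat.zero_le (y ^ r)]
    exact h r

theorem repr {m : ℕ} (r : Fin m → ℕ) (hr : ∀ i, Odd (r i) ∧ 3 ≤ r i) {n : ℕ} (hn : 4 ≤ n) :
    Rep (∑ i, r i) (2 * ∑ i, r i) n 1 0 (fun y => y) (fun i y => rep (r i) y) (G r) := by
  constructor
  · refine (natDegree_prod_le _ _).trans ?_
    apply sum_le_sum
    intro i _
    unfold G
    apply natDegree_sum_le_of_forall_le
    intro j hj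
    rw [mem_range] at hj
    exact (natDegree_X_pow_le j).trans hj.le
  · intro p hp
    refine ⟨-1, ?_⟩
    rw [eval_mul, eval_prod, prod_congr rfl (fun i _ => eval_G_neg r i (hr i).1)]
    simp only [eval_add, eval_mul, eval_C, eval_X, prod_const_one, mul_one, add_zero, one_mul]
    rw [dvd_neg]
    exact Int.natCast_dvd.not.2 (by simpa using hp.one_lt.ne')
  · intro y h1 h2
    exact ⟨by simp, h1⟩
  · intro y h1 h2 i
    rw [eval_G_nat]
    simp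
  · intro y h1 h2 i
    obtain ⟨g1, g2⟩ := rep_bounds (hr i).2 (show 2 ≤ y by omega)
    refine ⟨g1, g2.trans ?_⟩
    have h3 : y ≤ n ^ 2 := by nlinarith
    calc y ^ r i ≤ (n ^ 2) ^ r i := Nat.pow_le_pow_left h3 _
      _ = n ^ (2 * r i) := by rw [← pow_mul]
      _ ≤ n ^ (2 * ∑ i, r i) := by
          apply Nat.pow_le_pow_right (by omega)
          exact Nat.mul_le_mul_left 2 (single_le_sum (fun j _ => Nat.zero_le (r j)) (mem_univ i))

theorem Good_eq {m : ℕ} (t n : ℕ) (r : Fin m → ℕ) : Good t n r = T (fun y => y) (fun i y => rep (r i) y) t n := rfl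

theorem dens_eq {m : ℕ} (r : Fin m → ℕ) (n : ℕ) : dens r n = W ((C (1 : ℤ) * X + C (0 : ℤ)) * ∏ i, G r i) n := by
  unfold dens W
  apply prod_congr rfl
  intro p _
  unfold omega rt
  have h : ∀ x : ℕ, ((C (1 : ℤ) * X + C (0 : ℤ)) * ∏ i, G r i).eval (x : ℤ) = ((x * ∏ i, rep (r i) x : ℕ) : ℤ) := by
    intro x
    rw [eval_mul, eval_prod, prod_congr rfl (fun i _ => eval_G_nat r i x)]
    push_cast
    simp
  simp only [h, Int.natCast_dvd_natCast]

/-- **Narrow progressions of primes `p` for which several numbers `1 + p + ... + p ^ (r_i - 1)` are almost prime.** -/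
theorem result (m : ℕ) (r : Fin m → ℕ) (hr : ∀ i, Odd (r i) ∧ 3 ≤ r i) : ∃ t : ℕ, 1 ≤ t ∧ ∃ c : ℝ, 0 < c ∧
    (∀ p : ℕ, rep 3 p = p ^ 2 + p + 1) ∧
    (∃ N : ℕ, ∀ n : ℕ, N ≤ n → c / Real.log n ^ (∑ i, r i + 1) ≤ dens r n ∧ c * (n * dens r n) ≤ ((Good t n r).card : ℝ)) ∧
    (∀ (L : ℕ) (δ : ℝ), 0 < δ → ∃ D N : ℕ, ∀ n : ℕ, N ≤ n → ∀ S ⊆ Good t n r, δ * ((Good t n r).card : ℝ) ≤ S.card →
        ∃ x d : ℕ, 1 ≤ d ∧ (d : ℝ) ≤ Real.log n ^ D ∧ ∀ j < L, x + j * d ∈ S) ∧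
    (∀ (L q : ℕ), 1 ≤ q → ∃ D N : ℕ, ∀ n : ℕ, N ≤ n →
      ∀ col : ℕ → Fin q, ∃ (s : Fin m → ℕ) (b : Fin q) (x d : ℕ), (∀ i, 1 ≤ s i ∧ s i ≤ t * (2 * ∑ i, r i)) ∧
        1 ≤ d ∧ (d : ℝ) ≤ Real.log n ^ D ∧ ∀ j < L, n < x + j * d ∧ x + j * d < 2 * n ∧ (x + j * d).Prime ∧ col (x + j * d) = b ∧
          ∀ i, (rep (r i) (x + j * d)).primeFactorsList.length = s i ∧
            ∀ l : ℕ, l.Prime → l ∣ rep (r i) (x + j * d) → (n : ℝ) ^ (1 / (t : ℝ)) < l) := by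
  classical
  obtain ⟨t, ht, H⟩ := natRow m (∑ i, r i) (2 * ∑ i, r i)
  obtain ⟨c, hc, ⟨N1, h1⟩, h2, h3⟩ := H 1 0 (by norm_num)
  refine ⟨t, ht, c, hc, ?_, ⟨max N1 4, fun n hn => ?_⟩, fun L δ hδ => ?_, fun L q hq => ?_⟩
  · intro p
    unfold rep
    rw [sum_range_succ, sum_range_succ, sum_range_one]
    ring
  · rw [dens_eq, Good_eq]
    exact h1 n ((le_max_left _ _).trans hn) _ _ _ (repr r hr ((le_max_right _ _).trans hn))
  · obtain ⟨D, N, h4⟩ := h2 L δ hδ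
    refine ⟨D, max N 4, fun n hn S hS hSc => ?_⟩
    rw [Good_eq] at hS hSc
    exact h4 n ((le_max_left _ _).trans hn) _ _ _ (repr r hr ((le_max_right _ _).trans hn)) S hS hSc
  · obtain ⟨D, N, h4⟩ := h3 L q hq
    refine ⟨D, max N 4, fun n hn col => ?_⟩
    obtain ⟨s, b, x, d, g1, g2, g3, g4⟩ := h4 n ((le_max_left _ _).trans hn) _ _ _
      (repr r hr ((le_max_right _ _).trans hn)) col
    refine ⟨s, b, x, d, g1, g2, g3, fun j hj => ?_⟩
    obtain ⟨g5, g6, g7⟩ := g4 j hj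
    unfold T at g5
    rw [mem_filter, mem_Ioo] at g5
    exact ⟨g5.1.1, g5.1.2, g5.2.1, g6, fun i => ⟨g7 i, g5.2.2 i⟩⟩

end Pool.Agent.Results.MP_82233c_nt.CyclotomicProgressions
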