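import Pool.Agent.Q236.RP.PrimeArgs

set_option autoImplicit false

/-!
# The prime values of random polynomials at the primes

Let `f_1, …, f_n : ℕ → ℤ` be ARBITRARY functions, and let `P_i = f_i + c_{i0} + c_{i1} x + … + c_{i,d-1} x^(d-1)`,
where the coefficients `c_{ij}` run independently through the integers of intervals of length at least
`X / log^C X` such that all values which occur have the size `X` up to a power of `log X`.

* **Arguments without concentration.** Let `T_1, …, T_r` be disjoint sets of arguments whose union has at most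
  `B log^n X / φ(q)` elements in every residue class modulo every `q ≤ log^θ X`.  If `d` is large enough in terms of
  `n, r, B, θ, C, ε` and `X → ∞`, the numbers of the `k ∈ T_t` with ALL `P_1(k), …, P_n(k)` PRIME follow the mixed
  product of Poisson laws up to `ε` in total variation, whose parameters are the expected numbers given the residues
  of the coefficients modulo the primes `≤ w`; the joint moments of order `≤ d` agree for every `d`.
* **Prime arguments.** This holds for arbitrary sets `T_t` of PRIMES in an interval `(K₀, K₀ + K]`, short or long, with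
  `K / log K ≤ λ log^n X`.
* **All primes up to `y`.** If the `f_i` are polynomials and `π(y) ≤ λ log^n X`, the parameter of the set of the primes
  `q ≤ y` is `C_w(x, P_1, …, P_n) π(y) / log^n X + o(1)`, with the product over the primes `≤ w` of the local factors in
  the conjecture of Bateman-Horn and Schinzel for the system `x, P_1, …, P_n`.
-/

namespace Pool.Agent.Results.MP_82233c_nt.RandomPolynomialsAtPrimes

open Finset Filter

/-- The value at `k` of `f + c_0 + c_1 x + … + c_{d-1} x^(d-1)`. -/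
def value {d : ℕ} (f : ℕ → ℤ) (c : Fin d → ℤ) (k : ℕ) : ℤ := f k + ∑ j, c j * (k : ℤ) ^ (j : ℕ)

/-- The arrays of coefficients `Z i j < c i j ≤ Z i j + Y i j`. -/
noncomputable def Arrays {n d : ℕ} (Z : Fin n → Fin d → ℤ) (Y : Fin n → Fin d → ℕ) : Finset (Fin n → Fin d → ℤ) :=
  Fintype.piFinset fun i => Fintype.piFinset fun j => Ioc (Z i j) (Z i j + Y i j)

open Classical in
/-- The number of the `k ∈ T` for which all the values are primes. -/
noncomputable def primePoints {n d : ℕ} (f : Fin n → ℕ → ℤ) (T : Finset ℕ) (c : Fin n → Fin d → ℤ) : ℕ :=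
  (T.filter (fun k => ∀ i, (value (f i) (c i) k).toNat.Prime)).card

/-- The product of `(1 - 1 / p)⁻¹` over the primes `p ≤ w`. -/
noncomputable def mertens (w : ℕ) : ℝ := ∏ p ∈ (range (w + 1)).filter Nat.Prime, (1 - (p : ℝ)⁻¹)⁻¹

open Classical in
/-- The expected number of prime points in `T`, given the residues of the coefficients modulo the primes `≤ w`:
the number of the `k ∈ T` such that no prime `p ≤ w` divides a value, times
`(∏_{p ≤ w} (1 - 1 / p)⁻¹ / log X) ^ n`. -/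
noncomputable def mean {n d : ℕ} (f : Fin n → ℕ → ℤ) (w X : ℕ) (T : Finset ℕ) (c : Fin n → Fin d → ℤ) : ℝ :=
  (mertens w / Real.log X) ^ n *
    ((T.filter (fun k => ∀ i, ∀ p : ℕ, p.Prime → p ≤ w → ¬(p : ℤ) ∣ value (f i) (c i) k)).card : ℝ)

/-- The sizes: intervals of length at least `X / log^C X` for the coefficients, arguments at most `log^C X`, values
between `X / log^C X` and `X log^C X`. -/
structure Sizes (C X : ℕ) {n d : ℕ} (f : Fin n → ℕ → ℤ) (Z : Fin n → Fin d → ℤ) (Y : Fin n → Fin d → ℕ)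
    (S : Finset ℕ) : Prop where
  side : ∀ i j, (X : ℝ) / Real.log X ^ C ≤ Y i j
  arguments : ∀ k ∈ S, (k : ℝ) ≤ Real.log X ^ C
  values : ∀ c ∈ Arrays Z Y, ∀ k ∈ S, ∀ i, (X : ℝ) / Real.log X ^ C ≤ value (f i) (c i) k ∧
    (value (f i) (c i) k : ℝ) ≤ X * Real.log X ^ C

/-- The probability that independent Poisson variables with the means `x_t` are in `A`. -/
noncomputable def Poisson {r : ℕ} (x : Fin r → ℝ) (A : Finset (Fin r → ℕ)) : ℝ :=
  ∑ j ∈ A, ∏ t, (Real.exp (-x t) * x t ^ j t / (j t).factorial)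

/-- At most `B log^n X / φ(q)` elements in every residue class modulo every `q ≤ log^θ X`. -/
def Spread (n : ℕ) (B θ : ℝ) (X : ℕ) (S : Finset ℕ) : Prop :=
  ∀ q a : ℕ, 1 ≤ q → (q : ℝ) ≤ Real.log X ^ θ →
    ((S.filter (fun k => k ≡ a [MOD q])).card : ℝ) * (Nat.totient q : ℝ) ≤ B * Real.log X ^ n

/-- The number of the residues `k` modulo `p` with `p ∣ k P_1(k) ⋯ P_n(k)`, `P_i = F_i + ∑_j c_{ij} x^j`. -/
noncomputable def omega {n d : ℕ} (F : Fin n → Polynomial ℤ) (c : Fin n → Fin d → ℤ) (p : ℕ) : ℕ :=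
  ((range p).filter (fun k : ℕ => (p : ℤ) ∣ k * ∏ i, value (fun k => (F i).eval (k : ℤ)) (c i) k)).card

/-- The truncated singular series `∏_{p ≤ w} (1 - ω(p) / p) / (1 - 1 / p) ^ (n + 1)` of `x, P_1, …, P_n`. -/
noncomputable def singular {n d : ℕ} (F : Fin n → Polynomial ℤ) (w : ℕ) (c : Fin n → Fin d → ℤ) : ℝ :=
  ∏ p ∈ (range (w + 1)).filter Nat.Prime, ((1 - (omega F c p : ℝ) / p) * ((1 - (p : ℝ)⁻¹)⁻¹) ^ (n + 1))

open Pool.Agent.Q236.RP Pool.Agent.Q236.UL

lemma arrays_eq {n d : ℕ} (Z : Fin n → Fin d → ℤ) (Y : Fin n → Fin d → ℕ) : Arrays Z Y = BoxN Z Y := rfl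

lemma prime_eq {n d : ℕ} (f : Fin n → ℕ → ℤ) (T : Finset ℕ) (c : Fin n → Fin d → ℤ) : primePoints f T c = Np f T c := by
  classical
  unfold primePoints Np
  congr 1
  apply filter_congr
  intro k _
  exact Iff.rfl

lemma mertens_eq (w : ℕ) : mertens w = gP w := (gP_eq w).symm

lemma mean_eq {n d : ℕ} (f : Fin n → ℕ → ℤ) (w X : ℕ) (T : Finset ℕ) (c : Fin n → Fin d → ℤ) :
    mean f w X T c = xp f w X T c := by
  classical
  unfold mean xp Sv
  rw [mertens_eq]
  congr 3
  apply filter_congr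
  intro k _
  apply forall_congr'
  intro i
  exact (coprime_primorial w _).symm

lemma box_nonempty {d : ℕ} (Z : Fin d → ℤ) (Y : Fin d → ℕ) (hY : ∀ i, 1 ≤ Y i) : (Box Z Y).Nonempty := by
  refine ⟨fun i => Z i + 1, ?_⟩
  rw [mem_Box]
  intro i
  have : (1 : ℤ) ≤ Y i := by exact_mod_cast hY i
  exact ⟨by linarith, by linarith⟩

lemma sizes_sz (C X : ℕ) {n d : ℕ} (f : Fin n → ℕ → ℤ) (Z : Fin n → Fin d → ℤ) (Y : Fin n → Fin d → ℕ)
    (S : Finset ℕ) (h : Sizes C X f Z Y S) (hX : (0 : ℝ) < (X : ℝ) / Real.log X ^ C) :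
    ∀ i, SZ C X (f i) (Z i) (Y i) S := by
  have hY : ∀ i j, 1 ≤ Y i j := by
    intro i j
    have h1 := h.side i j
    have : (0 : ℝ) < Y i j := lt_of_lt_of_le hX h1
    exact_mod_cast this
  have key : ∀ i, ∀ b ∈ Box (Z i) (Y i), ∃ c ∈ Arrays Z Y, c i = b := by
    intro i b hb
    refine ⟨fun l => if h : l = i then b else fun j => Z l j + 1, ?_, ?_⟩
    · rw [arrays_eq]
      unfold BoxN
      rw [Fintype.mem_piFinset]
      intro l
      split_ifs with hl
      · rw [hl]
        exact hb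
      · rw [mem_Box]
        intro j
        have : (1 : ℤ) ≤ Y l j := by exact_mod_cast hY l j
        exact ⟨by linarith, by linarith⟩
    · simp
  intro i
  refine ⟨h.side i, h.arguments, ?_, ?_⟩
  · intro k hk b hb
    obtain ⟨c, hc, rfl⟩ := key i b hb
    exact (h.values c hc k hk i).1
  · intro k hk b hb
    obtain ⟨c, hc, rfl⟩ := key i b hb
    exact (h.values c hc k hk i).2

lemma al_eq {r : ℕ} (T : Fin r → Finset ℕ) : univ.biUnion T = Al T := rfl


open Classical in
/-- **The law and the moments of the numbers of prime points at prime arguments.** -/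
theorem result :
    -- (1) the law for sets of arguments without concentration
    (∀ (n r C : ℕ) (B θ ε : ℝ), 1 ≤ n → 0 ≤ B → 0 < θ → 0 < ε → ∃ d₀ w₀ : ℕ, ∀ w, w₀ ≤ w → ∀ d : ℕ, d₀ ≤ d →
      ∃ X₀ : ℕ, ∀ X, X₀ ≤ X → ∀ (f : Fin n → ℕ → ℤ) (Z : Fin n → Fin d → ℤ) (Y : Fin n → Fin d → ℕ)
      (T : Fin r → Finset ℕ), (∀ t u, t ≠ u → Disjoint (T t) (T u)) → Spread n B θ X (univ.biUnion T) →
      Sizes C X f Z Y (univ.biUnion T) → ∀ A : Finset (Fin r → ℕ),
      |(((Arrays Z Y).filter (fun c => (fun t => primePoints f (T t) c) ∈ A)).card : ℝ) -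
        ∑ c ∈ Arrays Z Y, Poisson (fun t => mean f w X (T t) c) A| ≤ ε * (Arrays Z Y).card) ∧
    -- (2) the moments, for every `d`
    (∀ (n r C d : ℕ) (B θ ε : ℝ), 1 ≤ n → 0 ≤ B → 0 < θ → 0 < ε → ∃ w₀ : ℕ, ∀ w, w₀ ≤ w →
      ∃ X₀ : ℕ, ∀ X, X₀ ≤ X → ∀ (f : Fin n → ℕ → ℤ) (Z : Fin n → Fin d → ℤ) (Y : Fin n → Fin d → ℕ)
      (T : Fin r → Finset ℕ), (∀ t u, t ≠ u → Disjoint (T t) (T u)) → Spread n B θ X (univ.biUnion T) →
      Sizes C X f Z Y (univ.biUnion T) → ∀ m : Fin r → ℕ, ∑ t, m t ≤ d →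
      |∑ c ∈ Arrays Z Y, ∏ t, ((primePoints f (T t) c).choose (m t) : ℝ) -
        ∑ c ∈ Arrays Z Y, ∏ t, (mean f w X (T t) c ^ m t / (m t).factorial)| ≤ ε * (Arrays Z Y).card) ∧
    -- (3) the law for arbitrary sets of primes in an interval
    (∀ (n r C : ℕ) (lam ε : ℝ), 1 ≤ n → 0 ≤ lam → 0 < ε → ∃ d₀ w₀ : ℕ, ∀ w, w₀ ≤ w → ∀ d : ℕ, d₀ ≤ d →
      ∃ X₀ : ℕ, ∀ X, X₀ ≤ X → ∀ (f : Fin n → ℕ → ℤ) (Z : Fin n → Fin d → ℤ) (Y : Fin n → Fin d → ℕ)
      (T : Fin r → Finset ℕ) (K₀ K : ℕ), (∀ t u, t ≠ u → Disjoint (T t) (T u)) →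
      (∀ t, T t ⊆ (Ioc K₀ (K₀ + K)).filter Nat.Prime) → (K : ℝ) ≤ lam * Real.log X ^ n * Real.log K →
      Sizes C X f Z Y (univ.biUnion T) → ∀ A : Finset (Fin r → ℕ),
      |(((Arrays Z Y).filter (fun c => (fun t => primePoints f (T t) c) ∈ A)).card : ℝ) -
        ∑ c ∈ Arrays Z Y, Poisson (fun t => mean f w X (T t) c) A| ≤ ε * (Arrays Z Y).card) ∧
    -- (4) the parameter of the set of all primes up to `y`, if the functions are polynomials
    (∀ (n w : ℕ) (lam ε : ℝ), 1 ≤ n → 0 ≤ lam → 0 < ε → ∃ X₀ : ℕ, ∀ X, X₀ ≤ X → ∀ (d : ℕ)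
      (F : Fin n → Polynomial ℤ) (c : Fin n → Fin d → ℤ) (y : ℕ), (Nat.primeCounting y : ℝ) ≤ lam * Real.log X ^ n →
      |mean (fun i k => (F i).eval (k : ℤ)) w X ((Icc 1 y).filter Nat.Prime) c -
        singular F w c * (Nat.primeCounting y / Real.log X ^ n)| ≤ ε) := by
  have hspr : ∀ (n : ℕ) (B θ : ℝ) (C X : ℕ) {r d : ℕ} (f : Fin n → ℕ → ℤ) (Z : Fin n → Fin d → ℤ)
      (Y : Fin n → Fin d → ℕ) (T : Fin r → Finset ℕ), Spread n B θ X (univ.biUnion T) →
      Sizes C X f Z Y (univ.biUnion T) → Spr n B θ C X (Al T) := by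
    intro n B θ C X r d f Z Y T h1 h2
    exact ⟨h2.arguments, fun q hq1 hq2 a => h1 q a hq1 hq2⟩
  refine ⟨?_, ?_, ?_, ?_⟩
  · intro n r C B θ ε hn hB hθ hε
    obtain ⟨d0, w0, _, h⟩ := rp_gen (τ := Fin r) hn B ε hB hε _ (few_spr n B θ hθ C)
    refine ⟨d0, w0, ?_⟩
    intro w hw d hd
    obtain ⟨X0, hX0⟩ := eventually_atTop.1 ((h w hw C d hd).and ((ev_log_ge 1).and (ev_pow_log 1)))
    refine ⟨X0, ?_⟩
    intro X hX f Z Y T hT hsp hsz A
    obtain ⟨h1, hL, hP⟩ := hX0 X hX
    have hXp : (0 : ℝ) < (X : ℝ) / Real.log X ^ C := by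
      have : (0 : ℝ) < X := by
        rw [pow_one] at hP
        linarith
      positivity
    have h2 := h1 f Z Y T hT (hspr n B θ C X f Z Y T hsp hsz) (sizes_sz C X f Z Y _ hsz hXp) A
    simp only [mean_eq, prime_eq]
    exact h2
  · intro n r C d B θ ε hn hB hθ hε
    obtain ⟨w0, _, h⟩ := mom_all (τ := Fin r) hn d B ε hB hε _ (few_spr n B θ hθ C)
    refine ⟨w0, ?_⟩
    intro w hw
    obtain ⟨X0, hX0⟩ := eventually_atTop.1 ((h w hw C).and ((ev_log_ge 1).and (ev_pow_log 1)))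
    refine ⟨X0, ?_⟩
    intro X hX f Z Y T hT hsp hsz m hm
    obtain ⟨h1, hL, hP⟩ := hX0 X hX
    have hXp : (0 : ℝ) < (X : ℝ) / Real.log X ^ C := by
      have : (0 : ℝ) < X := by
        rw [pow_one] at hP
        linarith
      positivity
    have h2 := h1 f Z Y T hT (hspr n B θ C X f Z Y T hsp hsz) (sizes_sz C X f Z Y _ hsz hXp) m hm
    simp only [mean_eq, prime_eq]
    exact h2
  · intro n r C lam ε hn hlam hε
    obtain ⟨d0, w0, _, h⟩ := rp_gen (τ := Fin r) hn (88 * lam + 1) ε (by positivity) hε _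
      (few_spr n (88 * lam + 1) (1 / 4) (by norm_num) C)
    refine ⟨d0, w0, ?_⟩
    intro w hw d hd
    obtain ⟨X0, hX0⟩ := eventually_atTop.1 ((h w hw C d hd).and ((ev_log_ge 1).and ((ev_pow_log 1).and
      (spr_primes n hn lam hlam C))))
    refine ⟨X0, ?_⟩
    intro X hX f Z Y T K0 K hT hTK hK hsz A
    obtain ⟨h1, hL, hP, hspr'⟩ := hX0 X hX
    have hXp : (0 : ℝ) < (X : ℝ) / Real.log X ^ C := by
      have : (0 : ℝ) < X := by
        rw [pow_one] at hP
        linarith
      positivity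
    have hsub : Al T ⊆ (Ioc K0 (K0 + K)).filter Nat.Prime := by
      intro k hk
      unfold Al at hk
      rw [mem_biUnion] at hk
      obtain ⟨t, _, ht⟩ := hk
      exact hTK t ht
    have h2 := h1 f Z Y T hT (hspr' K0 K (Al T) hsub hK hsz.arguments) (sizes_sz C X f Z Y _ hsz hXp) A
    simp only [mean_eq, prime_eq]
    exact h2
  · intro n w lam ε hn hlam hε
    obtain ⟨X0, hX0⟩ := eventually_atTop.1 (xp_primes n hn w lam ε hlam hε)
    refine ⟨X0, ?_⟩
    intro X hX d F c y hy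
    have hpi : H343E.pi1 y = (Nat.primeCounting y : ℝ) := by
      unfold H343E.pi1
      congr 1
      rw [Nat.primeCounting, Nat.primeCounting', Nat.count_eq_card_filter_range]
      congr 1
      ext k
      rw [mem_filter, mem_filter, mem_Icc, mem_range]
      constructor
      · rintro ⟨⟨_, h2⟩, h3⟩
        exact ⟨by omega, h3⟩
      · rintro ⟨h2, h3⟩
        exact ⟨⟨h3.one_lt.le, by omega⟩, h3⟩
    have h3 := hX0 X hX d F c y (by rw [hpi]; exact hy)
    have e : singular F w c = ssp F w c := by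
      unfold singular ssp
      rw [Finset.prod_mul_distrib, Finset.prod_pow, ← gP_eq, mul_comm]
      congr 1
      apply Finset.prod_congr rfl
      intro p _
      have : omega F c p = om (Polynomial.X * GG F c) p := by
        unfold omega om
        congr 1
        apply filter_congr
        intro k _
        rw [Polynomial.eval_mul, Polynomial.eval_X, GG_eval]
        rfl
      rw [this]
    rw [mean_eq, e, ← hpi]
    exact h3

end Pool.Agent.Results.MP_82233c_nt.RandomPolynomialsAtPrimes
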